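import Pool.Agent.H2.MkE

open Pool.Agent.H2.Mk

namespace Pool.Agent.Results.MP_04557e_an.APYes

/-- Vector-valued Mokobodzki theorem under the approximation property. -/
theorem result {𝕜 V E : Type*} [RCLike 𝕜] [AddCommGroup V] [Module ℝ V] [TopologicalSpace V]
    [IsTopologicalAddGroup V] [ContinuousSMul ℝ V] [LocallyConvexSpace ℝ V] [T2Space V]
    [NormedAddCommGroup E] [NormedSpace 𝕜 E] [NormedSpace ℝ E] [IsScalarTower ℝ 𝕜 E]
    [CompleteSpace E] (hE : HasAP 𝕜 E) (X : Set V) (hXc : IsCompact X) (hXv : Convex ℝ X)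
    (f : X → E) (haff : IsAff X f) (hf : f ∈ C1 X (Set.univ : Set E)) :
    f ∈ A1 X (Set.univ : Set E) := by
  obtain ⟨-, g, hg, hl⟩ := hf
  obtain ⟨M, hM0, hM⟩ := bounded_of_aff hXc hXv haff (fun n => (hg n).1) hl
  obtain ⟨a, ha, hal⟩ := main hE.finAP hXc hXv haff (fun n => (hg n).1) hl hM0 hM
  exact ⟨fun _ => trivial, a, fun n => ⟨(ha n).1, (ha n).2.1, fun _ => trivial⟩, hal⟩

end Pool.Agent.Results.MP_04557e_an.APYes
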